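import Pool.Agent.H68.GHY.Targets

set_option autoImplicit false

namespace Pool.Agent.H22.GHY.LT4

open MeasureTheory Pool.Agent.H68.GHY Pool.Agent.H34.GM Pool.Agent.H34.GZ Pool.Agent.H34.GU
  Pool.Agent.H34.GA

theorem pf_LT4 : T_LSD → T_GAL → T_SQD → T_LT4 := by
  classical
  intro hLSD hGAL hSQD m hm ε hε
  obtain ⟨c, C, K, hc, hC, H⟩ := hLSD m hm ε hε
  obtain ⟨C', hC', HG⟩ := hGAL
  refine ⟨c, C' * C, K, hc, mul_pos hC' hC, ?_⟩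
  intro N _ T D hS ι _ _ F lam P hF hO δ hδ hδ2 hP y a hy ha
  have h1 := H N T D hS ι F lam P hF hO δ hδ hδ2 hP y a hy ha
  have h2 : ∀ i, ∫⁻ t in Set.Icc (-δ⁻¹) δ⁻¹, ENNReal.ofReal (‖DP m (lam i) a y t‖ ^ 4) ≤
      ENNReal.ofReal (C' * δ⁻¹ ^ 2) * ∫⁻ x0 in Set.Ioi (0 : ℝ),
        ENNReal.ofReal (‖Bs m (lam i) a y δ x0‖ ^ 2 * x0⁻¹) := by
    intro i
    have h3 := HG δ hδ hδ2 ⌊y ^ 2⌋₊ (bq m (lam i) a)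
    have h4 : ∀ t : ℝ, ENNReal.ofReal (‖DP m (lam i) a y t‖ ^ 4) = ENNReal.ofReal
        (‖∑ k ∈ Finset.Icc 1 ⌊y ^ 2⌋₊, bq m (lam i) a k *
          (k : ℂ) ^ (-((t : ℂ) * Complex.I))‖ ^ 2) := by
      intro t
      rw [← hSQD m (lam i) a y t hy ha, norm_pow, ← pow_mul]
    simp only [h4]
    refine le_trans h3 (le_of_eq ?_)
    unfold Bs
    rfl
  calc ∑ i, ∫⁻ t in Set.Icc (-δ⁻¹) δ⁻¹, ENNReal.ofReal (‖DP m (lam i) a y t‖ ^ 4)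
      ≤ ∑ i, ENNReal.ofReal (C' * δ⁻¹ ^ 2) * ∫⁻ x0 in Set.Ioi (0 : ℝ),
        ENNReal.ofReal (‖Bs m (lam i) a y δ x0‖ ^ 2 * x0⁻¹) := Finset.sum_le_sum fun i _ => h2 i
    _ = ENNReal.ofReal (C' * δ⁻¹ ^ 2) * ∑ i, ∫⁻ x0 in Set.Ioi (0 : ℝ),
        ENNReal.ofReal (‖Bs m (lam i) a y δ x0‖ ^ 2 * x0⁻¹) := by rw [Finset.mul_sum]
    _ ≤ ENNReal.ofReal (C' * δ⁻¹ ^ 2) * ENNReal.ofReal (C * δ ^ 2 * δ⁻¹ ^ (m ^ 2) *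
        (N : ℝ) ^ ((m : ℝ) + ε) * (1 + Real.log (y * N * δ⁻¹)) ^ K * y ^ (2 * m) *
        (1 + δ ^ m * y ^ 2 / N) ^ m) := by gcongr
    _ = _ := by
      rw [← ENNReal.ofReal_mul (by positivity)]
      congr 1
      have : δ⁻¹ ^ 2 * δ ^ 2 = 1 := by
        rw [← mul_pow, inv_mul_cancel₀ hδ.ne', one_pow]
      linear_combination (C' * C * δ⁻¹ ^ (m ^ 2) * (N : ℝ) ^ ((m : ℝ) + ε) *
        (1 + Real.log (y * N * δ⁻¹)) ^ K * y ^ (2 * m) * (1 + δ ^ m * y ^ 2 / N) ^ m) * this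

end Pool.Agent.H22.GHY.LT4
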